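import Pool.Agent.Helper486.TP.Final

/-!
# The Riesz measure of the lower envelope of δ-subharmonic functions

For all δ-subharmonic functions `w₁, …, w_m` in a domain `Ω ⊆ ℝⁿ`,
`μ[w₁ ∧ … ∧ w_m] ≥ ⋀_{j<k} μ[w_j ∧ w_k]`.
-/

namespace Pool.Agent.Results.MP_730047_an.LowerEnvelope

open Pool.Agent.Helper486.TP

/-- Let `n ≥ 3`, let `Ω ⊆ ℝⁿ` be a domain, let `c > 0` be the normalising constant of Riesz
measures, and let `w 0, …, w (m-1)`, `m ≥ 2`, be δ-subharmonic in `Ω`. Then the lower envelope and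
the pairwise minima have Riesz measures, the Riesz measures of the pairwise minima have a greatest
lower bound, and this greatest lower bound is at most the Riesz measure of the lower envelope. -/
theorem result (n : ℕ) (hn : 3 ≤ n) (Ω : Set (E n)) (hΩ : IsOpen Ω) (hΩc : IsConnected Ω)
    (c : ℝ) (hc : 0 < c) (m : ℕ) (hm : 2 ≤ m) (w : Fin m → E n → EReal)
    (hw : ∀ j, DeltaSubharmonic Ω (w j)) :
    (∃ μ, IsRiesz c Ω (fun x => ⨅ j, w j x) μ) ∧
    (∀ j k, ∃ ρ, IsRiesz c Ω (fun x => min (w j x) (w k x)) ρ) ∧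
    ∀ (μ : SignedRadon Ω) (ρ : Fin m → Fin m → SignedRadon Ω),
      IsRiesz c Ω (fun x => ⨅ j, w j x) μ →
      (∀ j k, j < k → IsRiesz c Ω (fun x => min (w j x) (w k x)) (ρ j k)) →
      (∃ I, IsGLB {κ | ∃ j k, j < k ∧ κ = ρ j k} I) ∧
      ∀ I, IsGLB {κ | ∃ j k, j < k ∧ κ = ρ j k} I → I ≤ μ :=
  riesz_envelope (by omega) hΩ hΩc.isPreconnected hm w hw hc

end Pool.Agent.Results.MP_730047_an.LowerEnvelope
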